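import Pool.Agent.Helper20.FS.St3

/-!
# Project SM, module MB (Mittag-Leffler in completions)
-/

open Topology Filter

namespace Pool.Agent.Helper21.SL

open Pool.Agent.Helper20.FA Pool.Agent.Helper20.FR Pool.Agent.Helper20.FS

attribute [local instance] IsFrechet.tag IsFrechet.csm IsFrechet.lcs

section alg

variable {A : Type} [CommRing A] [Algebra ℂ A]

private def Cau (r : Seminorm ℂ A) (x : ℕ → A) : Prop :=
  ∀ ε : ℝ, 0 < ε → ∃ N, ∀ m ≥ N, ∀ n ≥ N, r (x m - x n) ≤ ε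

private def SQ (q r : Seminorm ℂ A) (C : ℝ) (x : ℕ → A) : Prop :=
  Cau r x ∧ ∀ b, ∀ ε : ℝ, 0 < ε → ∀ᶠ n in atTop, r (x n * b) ≤ C * q b + ε

private lemma cau_bdd {r : Seminorm ℂ A} {x : ℕ → A} (h : Cau r x) : ∃ M : ℝ, 0 ≤ M ∧ ∀ n, r (x n) ≤ M := by
  obtain ⟨N, hN⟩ := h 1 one_pos
  refine ⟨1 + ∑ i ∈ Finset.range (N + 1), r (x i), ?_, fun n => ?_⟩
  · have h0 : 0 ≤ ∑ i ∈ Finset.range (N + 1), r (x i) := Finset.sum_nonneg fun i _ => apply_nonneg _ _
    linarith
  · rcases le_total n N with hn | hn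
    · have h1 : r (x n) ≤ ∑ i ∈ Finset.range (N + 1), r (x i) :=
        Finset.single_le_sum (f := fun i => r (x i)) (fun i _ => apply_nonneg _ _) (Finset.mem_range.2 (by omega))
      linarith
    · have h1 := hN n hn N le_rfl
      have h2 : r (x n) ≤ r (x n - x N) + r (x N) := by
        have h4 := map_add_le_add r (x n - x N) (x N)
        rwa [sub_add_cancel] at h4
      have h3 : r (x N) ≤ ∑ i ∈ Finset.range (N + 1), r (x i) :=
        Finset.single_le_sum (f := fun i => r (x i)) (fun i _ => apply_nonneg _ _) (Finset.mem_range.2 (by omega))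
      linarith

private lemma cau_mul {r : Seminorm ℂ A} (hm : ∀ a b, r (a * b) ≤ r a * r b) {x y : ℕ → A} (hx : Cau r x)
    (hy : Cau r y) : Cau r (fun n => x n * y n) := by
  obtain ⟨M, hM, hxM⟩ := cau_bdd hx
  obtain ⟨K, hK, hyK⟩ := cau_bdd hy
  intro ε hε
  obtain ⟨N1, h1⟩ := hx (ε / (2 * (K + 1))) (by positivity)
  obtain ⟨N2, h2⟩ := hy (ε / (2 * (M + 1))) (by positivity)
  refine ⟨max N1 N2, fun m hm' n hn => ?_⟩
  have e1 : x m * y m - x n * y n = (x m - x n) * y m + x n * (y m - y n) := by ring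
  simp only
  rw [e1]
  have h3 := h1 m (le_trans (le_max_left _ _) hm') n (le_trans (le_max_left _ _) hn)
  have h4 := h2 m (le_trans (le_max_right _ _) hm') n (le_trans (le_max_right _ _) hn)
  have h5 : r ((x m - x n) * y m) ≤ ε / (2 * (K + 1)) * K :=
    (hm _ _).trans (mul_le_mul h3 (hyK m) (apply_nonneg _ _) (by positivity))
  have h6 : r (x n * (y m - y n)) ≤ M * (ε / (2 * (M + 1))) :=
    (hm _ _).trans (mul_le_mul (hxM n) h4 (apply_nonneg _ _) hM)
  have h7 : ε / (2 * (K + 1)) * K ≤ ε / 2 := by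
    rw [div_mul_eq_mul_div, div_le_div_iff₀ (by positivity) (by norm_num)]
    nlinarith
  have h8 : M * (ε / (2 * (M + 1))) ≤ ε / 2 := by
    rw [mul_div_assoc', div_le_div_iff₀ (by positivity) (by norm_num)]
    nlinarith
  have h9 := map_add_le_add r ((x m - x n) * y m) (x n * (y m - y n))
  linarith

private lemma cau_add {r : Seminorm ℂ A} {x y : ℕ → A} (hx : Cau r x) (hy : Cau r y) :
    Cau r (fun n => x n + y n) := by
  intro ε hε
  obtain ⟨N1, h1⟩ := hx (ε / 2) (by positivity)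
  obtain ⟨N2, h2⟩ := hy (ε / 2) (by positivity)
  refine ⟨max N1 N2, fun m hm' n hn => ?_⟩
  have e1 : x m + y m - (x n + y n) = (x m - x n) + (y m - y n) := by abel
  simp only
  rw [e1]
  have h3 := h1 m (le_trans (le_max_left _ _) hm') n (le_trans (le_max_left _ _) hn)
  have h4 := h2 m (le_trans (le_max_right _ _) hm') n (le_trans (le_max_right _ _) hn)
  have h9 := map_add_le_add r (x m - x n) (y m - y n)
  linarith

private lemma cau_one_sub {r : Seminorm ℂ A} {x : ℕ → A} (hx : Cau r x) : Cau r (fun n => 1 - x n) := by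
  intro ε hε
  obtain ⟨N1, h1⟩ := hx ε hε
  refine ⟨N1, fun m hm' n hn => ?_⟩
  have e1 : 1 - x m - (1 - x n) = x n - x m := by abel
  simp only
  rw [e1]
  exact h1 n hn m hm'

private lemma improve (p q r : Seminorm ℂ A) (hpm : ∀ a b, p (a * b) ≤ p a * p b)
    (hrm : ∀ a b, r (a * b) ≤ r a * r b) (x : ℕ → A) (C : ℝ) (hC : 0 ≤ C) (hx : SQ q r C x)
    (hp : ∀ k, p (1 - x k) ≤ 1 / 2) (n : ℕ) :
    ∃ (y : ℕ → A) (C' : ℝ), 0 ≤ C' ∧ SQ q r C' y ∧ ∀ k, p (1 - y k) ≤ (1 / 2) ^ (n + 1) := by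
  induction n with
  | zero => exact ⟨x, C, hC, hx, by simpa using hp⟩
  | succ n ih =>
    obtain ⟨y, C', hC', hy, hyp⟩ := ih
    obtain ⟨M, hM, hyM⟩ := cau_bdd (cau_one_sub hy.1)
    refine ⟨fun k => (1 - y k) * x k + y k, M * C + C', by positivity,
      ⟨cau_add (cau_mul hrm (cau_one_sub hy.1) hx.1) hy.1, ?_⟩, ?_⟩
    · intro b ε hε
      filter_upwards [hx.2 b (ε / (2 * (M + 1))) (by positivity), hy.2 b (ε / 2) (by positivity)] with k h1 h2
      have e1 : ((1 - y k) * x k + y k) * b = (1 - y k) * (x k * b) + y k * b := by ring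
      rw [e1]
      have h3 := map_add_le_add r ((1 - y k) * (x k * b)) (y k * b)
      have h4 := (hrm (1 - y k) (x k * b)).trans (mul_le_mul (hyM k) h1 (apply_nonneg _ _) hM)
      have h5 : M * (ε / (2 * (M + 1))) ≤ ε / 2 := by
        rw [mul_div_assoc', div_le_div_iff₀ (by positivity) (by norm_num)]
        nlinarith
      have h6 : M * (C * q b + ε / (2 * (M + 1))) = M * C * q b + M * (ε / (2 * (M + 1))) := by ring
      rw [h6] at h4
      linarith
    · intro k
      have e1 : 1 - ((1 - y k) * x k + y k) = (1 - y k) * (1 - x k) := by ring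
      simp only
      rw [e1]
      refine (hpm _ _).trans ?_
      rw [pow_succ]
      exact mul_le_mul (hyp k) (hp k) (apply_nonneg _ _) (by positivity)

private lemma sq_of_qb (q r : Seminorm ℂ A) (C : ℝ) (x : ℕ → A) (h : QB q r C x) : SQ q r (max C 0) x := by
  obtain ⟨h1, h2⟩ := h
  have h3 : ∀ n i, r (x (n + i) - x n) ≤ 2 * (1 / 2) ^ n * (1 - (1 / 2) ^ i) := by
    intro n i
    induction i with
    | zero => simp
    | succ i ih =>
      have e1 : x (n + (i + 1)) - x n = (x (n + i + 1) - x (n + i)) + (x (n + i) - x n) := by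
        rw [← add_assoc]
        abel
      rw [e1]
      have h4 := map_add_le_add r (x (n + i + 1) - x (n + i)) (x (n + i) - x n)
      have h5 := h1 (n + i)
      rw [pow_add] at h5
      rw [pow_succ (1 / 2 : ℝ) i]
      have h6 : (0 : ℝ) < (1 / 2) ^ n * (1 / 2) ^ i := by positivity
      linarith
  refine ⟨?_, ?_⟩
  · intro ε hε
    obtain ⟨N, hN⟩ := exists_pow_lt_of_lt_one (by positivity : 0 < ε / 4) (by norm_num : (1 / 2 : ℝ) < 1)
    have h4 : ∀ m ≥ N, r (x m - x N) ≤ ε / 2 := by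
      intro m hm
      obtain ⟨i, rfl⟩ := Nat.exists_eq_add_of_le hm
      refine (h3 N i).trans ?_
      have h5 : (0 : ℝ) < (1 / 2) ^ i := by positivity
      have h6 : (0 : ℝ) < (1 / 2) ^ N := by positivity
      nlinarith
    refine ⟨N, fun m hm n hn => ?_⟩
    have e1 : x m - x n = (x m - x N) - (x n - x N) := by abel
    rw [e1]
    have h7 := map_sub_le_add r (x m - x N) (x n - x N)
    linarith [h4 m hm, h4 n hn]
  · intro b ε hε
    have h4 : Tendsto (fun k : ℕ => (1 / 2 : ℝ) ^ k * r b) atTop (𝓝 0) := by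
      have h5 := (tendsto_pow_atTop_nhds_zero_of_lt_one (by norm_num : (0 : ℝ) ≤ 1 / 2)
        (by norm_num : (1 / 2 : ℝ) < 1)).mul_const (r b)
      simpa using h5
    filter_upwards [h4.eventually (gt_mem_nhds hε)] with k hk
    have h6 := h2 k b
    have h5 : C * q b ≤ max C 0 * q b := mul_le_mul_of_nonneg_right (le_max_left _ _) (apply_nonneg _ _)
    linarith

private lemma prod_seq (q0 q r r' : Seminorm ℂ A) (hrm' : ∀ a b, r' (a * b) ≤ r' a * r' b)
    (hqr : ∀ x, q x ≤ r x) (C D : ℝ) (hC : 0 ≤ C) (y z : ℕ → A) (hy : SQ q r' C y)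
    (hz : SQ q0 r D z) : ∃ φ : ℕ → ℕ, SQ q0 r' (C * D) (fun l => y (φ l) * z l) := by
  have hev : ∀ l, ∀ᶠ n in atTop, (∀ i ∈ Finset.range (l + 1),
      r' (y n * (z l - z i)) ≤ C * q (z l - z i) + (1 / 2) ^ l) ∧
      (∀ n' ≥ n, r' (y n' - y n) * r' (z l) ≤ (1 / 2) ^ l) := by
    intro l
    refine Filter.Eventually.and ?_ ?_
    · rw [Filter.eventually_all_finset]
      intro i _
      exact hy.2 _ _ (by positivity)
    · have hz0 := apply_nonneg r' (z l)
      obtain ⟨N, hN⟩ := hy.1 ((1 / 2) ^ l / (r' (z l) + 1)) (by positivity)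
      filter_upwards [eventually_ge_atTop N] with n hn n' hn'
      have h1 := hN n' (le_trans hn hn') n hn
      rw [le_div_iff₀ (by positivity)] at h1
      have h2 := apply_nonneg r' (y n' - y n)
      nlinarith
  obtain ⟨φ, hφ, hP⟩ := Filter.extraction_forall_of_eventually hev
  have K1 : ∀ i l, i ≤ l → r' (y (φ l) * (z l - z i)) ≤ C * r (z l - z i) + (1 / 2) ^ l := by
    intro i l hil
    have h1 := (hP l).1 i (Finset.mem_range.2 (by omega))
    have h2 : C * q (z l - z i) ≤ C * r (z l - z i) := mul_le_mul_of_nonneg_left (hqr _) hC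
    linarith
  have K2 : ∀ i l, i ≤ l → r' ((y (φ l) - y (φ i)) * z i) ≤ (1 / 2) ^ i := by
    intro i l hil
    exact (hrm' _ _).trans ((hP i).2 (φ l) (hφ.monotone hil))
  have K3 : ∀ i l, i ≤ l → r' (y (φ l) * z l - y (φ i) * z i) ≤ C * r (z l - z i) + 2 * (1 / 2) ^ i := by
    intro i l hil
    have e1 : y (φ l) * z l - y (φ i) * z i = y (φ l) * (z l - z i) + (y (φ l) - y (φ i)) * z i := by ring
    rw [e1]
    have h1 := map_add_le_add r' (y (φ l) * (z l - z i)) ((y (φ l) - y (φ i)) * z i)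
    have h2 : (1 / 2 : ℝ) ^ l ≤ (1 / 2) ^ i := pow_le_pow_of_le_one (by norm_num) (by norm_num) hil
    linarith [K1 i l hil, K2 i l hil]
  refine ⟨φ, ?_, ?_⟩
  · intro ε hε
    obtain ⟨N1, h1⟩ := hz.1 (ε / (2 * (C + 1))) (by positivity)
    obtain ⟨N2, h2⟩ := exists_pow_lt_of_lt_one (by positivity : 0 < ε / 4) (by norm_num : (1 / 2 : ℝ) < 1)
    have h8 : C * (ε / (2 * (C + 1))) ≤ ε / 2 := by
      rw [mul_div_assoc', div_le_div_iff₀ (by positivity) (by norm_num)]
      nlinarith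
    have h3 : ∀ i l, max N1 N2 ≤ i → i ≤ l → r' (y (φ l) * z l - y (φ i) * z i) ≤ ε := by
      intro i l hi hil
      have h4 := h1 l (le_trans (le_max_left _ _) (le_trans hi hil)) i (le_trans (le_max_left _ _) hi)
      have h5 : (1 / 2 : ℝ) ^ i ≤ (1 / 2) ^ N2 :=
        pow_le_pow_of_le_one (by norm_num) (by norm_num) (le_trans (le_max_right _ _) hi)
      have h6 := K3 i l hil
      have h7 := mul_le_mul_of_nonneg_left h4 hC
      linarith
    refine ⟨max N1 N2, fun m hm n hn => ?_⟩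
    simp only
    rcases le_total m n with h | h
    · rw [map_sub_rev]
      exact h3 m n hm h
    · exact h3 n m hn h
  · intro b ε hε
    have hb0 := apply_nonneg r' b
    obtain ⟨N1, h1⟩ := hz.1 (ε / (4 * ((C + 1) * (r' b + 1)))) (by positivity)
    obtain ⟨l0, hl0, hN1⟩ := ((hz.2 b (ε / (4 * (C + 1))) (by positivity)).and (eventually_ge_atTop N1)).exists
    have h2 := hφ.tendsto_atTop.eventually (hy.2 (z l0 * b) (ε / 4) (by positivity))
    have h4 : Tendsto (fun k : ℕ => (1 / 2 : ℝ) ^ k * r' b) atTop (𝓝 0) := by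
      have h5 := (tendsto_pow_atTop_nhds_zero_of_lt_one (by norm_num : (0 : ℝ) ≤ 1 / 2)
        (by norm_num : (1 / 2 : ℝ) < 1)).mul_const (r' b)
      simpa using h5
    filter_upwards [h2, h4.eventually (gt_mem_nhds (by positivity : (0 : ℝ) < ε / 4)), eventually_ge_atTop l0] with l g1 g2 g3
    have e1 : y (φ l) * z l * b = y (φ l) * (z l - z l0) * b + y (φ l) * (z l0 * b) := by ring
    rw [e1]
    have g4 := map_add_le_add r' (y (φ l) * (z l - z l0) * b) (y (φ l) * (z l0 * b))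
    have g5 := (hrm' (y (φ l) * (z l - z l0)) b).trans (mul_le_mul_of_nonneg_right (K1 l0 l g3) hb0)
    have g6 := h1 l (le_trans hN1 g3) l0 hN1
    have g7 : C * r (z l - z l0) * r' b ≤ ε / 4 := by
      have g8 : C * r (z l - z l0) ≤ C * (ε / (4 * ((C + 1) * (r' b + 1)))) := mul_le_mul_of_nonneg_left g6 hC
      have g9 := mul_le_mul_of_nonneg_right g8 hb0
      refine g9.trans ?_
      have g10 : C * (ε / (4 * ((C + 1) * (r' b + 1)))) * r' b = (ε / 4) * ((C / (C + 1)) * (r' b / (r' b + 1))) := by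
        field_simp
      rw [g10]
      have g11 : C / (C + 1) ≤ 1 := (div_le_one (by positivity)).2 (by linarith)
      have g12 : r' b / (r' b + 1) ≤ 1 := (div_le_one (by positivity)).2 (by linarith)
      have g13 : (C / (C + 1)) * (r' b / (r' b + 1)) ≤ 1 := mul_le_one₀ g11 (by positivity) g12
      nlinarith
    have g14 : C * q (z l0 * b) ≤ C * (D * q0 b + ε / (4 * (C + 1))) :=
      mul_le_mul_of_nonneg_left ((hqr _).trans hl0) hC
    have g15 : C * (ε / (4 * (C + 1))) ≤ ε / 4 := by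
      rw [mul_div_assoc', div_le_div_iff₀ (by positivity) (by norm_num)]
      nlinarith
    have g16 : C * (D * q0 b + ε / (4 * (C + 1))) = C * D * q0 b + C * (ε / (4 * (C + 1))) := by ring
    have g17 : (C * r (z l - z l0) + (1 / 2) ^ l) * r' b = C * r (z l - z l0) * r' b + (1 / 2) ^ l * r' b := by ring
    rw [g17] at g5
    rw [g16] at g14
    linarith

end alg

/-- From a bound on the unit balls to a bound of seminorms. -/
private lemma le_of_ball {E : Type} [AddCommGroup E] [Module ℂ E] (s v : Seminorm ℂ E)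
    (h : ∀ x, v x < 1 → s x < 1) (x : E) : s x ≤ v x := by
  refine le_of_forall_pos_le_add fun ε hε => ?_
  have hv := apply_nonneg v x
  have ht : 0 < v x + ε := by linarith
  have h4 : v ((((v x + ε)⁻¹ : ℝ) : ℂ) • x) < 1 := by
    rw [map_smul_eq_mul, Complex.norm_real, Real.norm_of_nonneg (by positivity),
      inv_mul_lt_iff₀ ht]
    linarith
  have h5 := h _ h4
  rw [map_smul_eq_mul, Complex.norm_real, Real.norm_of_nonneg (by positivity),
      inv_mul_lt_iff₀ ht, mul_one] at h5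
  exact h5.le

/-- A countable family of seminorms. -/
private lemma exists_fam (A : Type) [AddCommGroup A] [Module ℂ A] [TopologicalSpace A]
    [IsFrechet A] : ∃ v : ℕ → Seminorm ℂ A, (∀ n, Continuous (v n)) ∧
      (∀ U ∈ 𝓝 (0 : A), ∃ n, ∀ x, v n x < 1 → x ∈ U) ∧
      ∀ s : Seminorm ℂ A, Continuous s → ∃ n, ∀ x, s x ≤ v n x := by
  have : TopologicalSpace.MetrizableSpace A := IsFrechet.metr
  obtain ⟨V, hV⟩ := (𝓝 (0 : A)).exists_antitone_basis
  have h1 : ∀ n, ∃ v : Seminorm ℂ A, Continuous v ∧ ∀ x, v x < 1 → x ∈ V n := fun n =>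
    exists_seminorm (hV.1.mem_of_mem trivial)
  choose v hv hvV using h1
  have h2 : ∀ U ∈ 𝓝 (0 : A), ∃ n, ∀ x, v n x < 1 → x ∈ U := by
    intro U hU
    obtain ⟨n, -, hn⟩ := hV.1.mem_iff.1 hU
    exact ⟨n, fun x hx => hn (hvV n x hx)⟩
  refine ⟨v, hv, h2, fun s hs => ?_⟩
  have h3 : {x : A | s x < 1} ∈ 𝓝 (0 : A) := by
    refine (isOpen_lt hs continuous_const).mem_nhds ?_
    simp
  obtain ⟨n, hn⟩ := h2 _ h3
  exact ⟨n, le_of_ball s (v n) hn⟩

private lemma exists_lim (A : Type) [AddCommGroup A] [Module ℂ A] [TopologicalSpace A]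
    [IsFrechet A] (Z : ℕ → A)
    (h : ∀ U ∈ 𝓝 (0 : A), ∃ N, ∀ n ≥ N, Z n - Z N ∈ U) : ∃ a, Tendsto Z atTop (𝓝 a) := by
  let _ : UniformSpace A := IsTopologicalAddGroup.rightUniformSpace A
  have : CompleteSpace A := IsFrechet.complete
  have : IsUniformAddGroup A := isUniformAddGroup_of_addCommGroup
  refine cauchySeq_tendsto_of_complete ?_
  rw [cauchySeq_iff_tendsto, uniformity_eq_comap_nhds_zero, tendsto_comap_iff]
  intro U hU
  have h1 : Tendsto (fun p : A × A => p.1 - p.2) (𝓝 0 ×ˢ 𝓝 0) (𝓝 0) := by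
    rw [← nhds_prod_eq]
    have : ContinuousAt (fun p : A × A => p.1 - p.2) (0, 0) := by fun_prop
    simpa [ContinuousAt] using this
  have h2 := h1 hU
  rw [Filter.mem_map, Filter.mem_prod_self_iff] at h2
  obtain ⟨V, hV, hVU⟩ := h2
  obtain ⟨N, hN⟩ := h V hV
  rw [Filter.mem_map, ← prod_atTop_atTop_eq, Filter.mem_prod_self_iff]
  refine ⟨Set.Ici N, Ici_mem_atTop N, ?_⟩
  rintro ⟨m, n⟩ ⟨hm, hn⟩
  have h3 := hVU (Set.mk_mem_prod (hN n hn) (hN m hm))
  simpa using h3

theorem hMB : StMB := by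
  intro A _ _ _ _ _ H1 H2 p hp
  obtain ⟨v, hvc, hvU, hvs⟩ := exists_fam A
  have H2' : ∀ p : Seminorm ℂ A, Good p → ∃ q : Seminorm ℂ A, Continuous q ∧
      ∀ r : Seminorm ℂ A, Good r → ∀ ε : ℝ, 0 < ε → ∃ (y : ℕ → A) (C : ℝ), 0 ≤ C ∧ SQ q r C y ∧
        ∀ k, p (1 - y k) ≤ ε := by
    intro p hp
    obtain ⟨q, hq, hqr⟩ := H2 p hp
    refine ⟨q, hq, fun r hr ε hε => ?_⟩
    obtain ⟨x, C, hx, hxp⟩ := hqr r hr
    obtain ⟨n, hn⟩ := exists_pow_lt_of_lt_one hε (by norm_num : (1 / 2 : ℝ) < 1)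
    obtain ⟨y, C', hC', hy, hyp⟩ := improve p q r hp.2 hr.2 x (max C 0) (le_max_right _ _)
      (sq_of_qb q r C x hx) (fun k => (hxp k).le) n
    refine ⟨y, C', hC', hy, fun k => (hyp k).trans ?_⟩
    have h2 : (1 / 2 : ℝ) ^ (n + 1) ≤ (1 / 2 : ℝ) ^ n :=
      pow_le_pow_of_le_one (by norm_num) (by norm_num) (Nat.le_succ n)
    linarith
  choose! up hup using H1
  choose! Q hQ using H2'
  -- the seminorms
  let P : ℕ → Seminorm ℂ A := fun n => Nat.rec p (fun k s => up (s + v k)) n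
  have hP0 : P 0 = p := rfl
  have hPs : ∀ k, P (k + 1) = up (P k + v k) := fun k => rfl
  have hPg : ∀ k, Good (P k) := by
    intro k
    induction k with
    | zero => exact hp
    | succ k ih =>
      rw [hPs]
      exact (hup _ (ih.1.add (hvc k))).1
  have hPle : ∀ k x, P k x + v k x ≤ P (k + 1) x := by
    intro k x
    rw [hPs]
    exact (hup (P k + v k) ((hPg k).1.add (hvc k))).2 x
  have hPle1 : ∀ k x, P k x ≤ P (k + 1) x := fun k x => by
    have := hPle k x
    have h3 := apply_nonneg (v k) x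
    linarith
  have hPle2 : ∀ k x, v k x ≤ P (k + 1) x := fun k x => by
    have := hPle k x
    have h3 := apply_nonneg (P k) x
    linarith
  have hPmono : ∀ k l, k ≤ l → ∀ x, P k x ≤ P l x := by
    intro k l hkl x
    induction hkl with
    | refl => exact le_rfl
    | step _ ih => exact ih.trans (hPle1 _ x)
  have hQc : ∀ k, Continuous (Q (P k)) := fun k => (hQ _ (hPg k)).1
  let R : ℕ → Seminorm ℂ A := fun k => up (Q (P k) + P k)
  have hRg : ∀ k, Good (R k) := fun k => (hup _ ((hQc k).add (hPg k).1)).1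
  have hRle : ∀ k x, Q (P k) x + P k x ≤ R k x := fun k x =>
    (hup (Q (P k) + P k) ((hQc k).add (hPg k).1)).2 x
  have hRQ : ∀ k x, Q (P k) x ≤ R k x := fun k x => by
    have := hRle k x
    have h3 := apply_nonneg (P k) x
    linarith
  have hRP : ∀ k x, P k x ≤ R k x := fun k x => by
    have := hRle k x
    have h3 := apply_nonneg (Q (P k)) x
    linarith
  -- the recursion
  have step : ∀ (n : ℕ) (s : (ℕ → A) × ℝ), (0 ≤ s.2 ∧ SQ (Q p) (R (n + 1)) s.2 s.1) →
      ∃ t : (ℕ → A) × ℝ, (0 ≤ t.2 ∧ SQ (Q p) (R (n + 2)) t.2 t.1) ∧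
        (∀ b, ∀ ε : ℝ, 0 < ε → ∀ᶠ l in atTop, P (n + 1) ((t.1 l - s.1 l) * b) ≤ (1 / 2) ^ (n + 4) * Q p b + ε) ∧
        ∀ l, P (n + 1) (t.1 l - s.1 l) ≤ (1 / 2) ^ (n + 4) := by
    rintro n ⟨z, D⟩ ⟨hD, hz⟩
    dsimp only at hD hz ⊢
    obtain ⟨E, hE, hzE⟩ := cau_bdd hz.1
    have hden : 0 < 1 + D + E := by linarith
    obtain ⟨y, C, hC, hyb, hy⟩ := (hQ _ (hPg (n + 1))).2 (R (n + 2)) (hRg (n + 2))
      ((1 / 2) ^ (n + 4) / (1 + D + E)) (by positivity)
    obtain ⟨φ, hφ⟩ := prod_seq (Q p) (Q (P (n + 1))) (R (n + 1)) (R (n + 2)) (hRg (n + 2)).2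
      (hRQ (n + 1)) C D hC y z hyb hz
    have e1 : ∀ l, P (n + 1) (y l - 1) = P (n + 1) (1 - y l) := fun l => map_sub_rev _ _ _
    have hy' : ∀ l, P (n + 1) (y l - 1) * (1 + D + E) ≤ (1 / 2) ^ (n + 4) := by
      intro l
      rw [e1 l]
      exact (le_div_iff₀ hden).1 (hy l)
    refine ⟨(fun l => y (φ l) * z l, C * D), ⟨mul_nonneg hC hD, hφ⟩, fun b ε hε => ?_, fun l => ?_⟩
    · filter_upwards [hz.2 b ε hε] with l hl
      have e2 : (y (φ l) * z l - z l) * b = (y (φ l) - 1) * (z l * b) := by ring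
      have hb := apply_nonneg (Q p) b
      rw [e2]
      have h1 := hy' (φ l)
      have h2 := apply_nonneg (P (n + 1)) (y (φ l) - 1)
      calc P (n + 1) ((y (φ l) - 1) * (z l * b)) ≤ P (n + 1) (y (φ l) - 1) * P (n + 1) (z l * b) :=
            (hPg (n + 1)).2 _ _
        _ ≤ P (n + 1) (y (φ l) - 1) * (D * Q p b + ε) :=
            mul_le_mul_of_nonneg_left ((hRP (n + 1) _).trans hl) h2
        _ = P (n + 1) (y (φ l) - 1) * D * Q p b + P (n + 1) (y (φ l) - 1) * ε := by ring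
        _ ≤ (1 / 2) ^ (n + 4) * Q p b + ε := by
            have h3 : P (n + 1) (y (φ l) - 1) * D ≤ (1 / 2) ^ (n + 4) := by nlinarith
            have h5 : (1 / 2 : ℝ) ^ (n + 4) ≤ 1 := pow_le_one₀ (by norm_num) (by norm_num)
            have h4 : P (n + 1) (y (φ l) - 1) ≤ 1 := by nlinarith
            have h6 := mul_le_mul_of_nonneg_right h3 hb
            nlinarith
    · have e2 : y (φ l) * z l - z l = (y (φ l) - 1) * z l := by ring
      simp only
      rw [e2]
      refine ((hPg (n + 1)).2 _ _).trans ?_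
      have h1 := hy' (φ l)
      have h2 := apply_nonneg (P (n + 1)) (y (φ l) - 1)
      have h3 : P (n + 1) (z l) ≤ E := (hRP (n + 1) _).trans (hzE l)
      nlinarith
  obtain ⟨z0, D0, hD0, hz0b, hz0⟩ := (hQ _ hp).2 (R 1) (hRg 1) (1 / 8) (by norm_num)
  choose! nx hnx using step
  let S : ℕ → (ℕ → A) × ℝ := fun n => Nat.rec (z0, D0) (fun k s => nx k s) n
  have hS0 : S 0 = (z0, D0) := rfl
  have hSs : ∀ n, S (n + 1) = nx n (S n) := fun n => rfl
  have hSP : ∀ n, 0 ≤ (S n).2 ∧ SQ (Q p) (R (n + 1)) (S n).2 (S n).1 := by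
    intro n
    induction n with
    | zero => exact ⟨hD0, hz0b⟩
    | succ n ih =>
      rw [hSs]
      exact (hnx n (S n) ih).1
  have hSd : ∀ n b, ∀ ε : ℝ, 0 < ε → ∀ᶠ l in atTop,
      P (n + 1) (((S (n + 1)).1 l - (S n).1 l) * b) ≤ (1 / 2) ^ (n + 4) * Q p b + ε := by
    intro n b
    rw [hSs]
    exact (hnx n (S n) (hSP n)).2.1 b
  have hSe : ∀ n l, P (n + 1) ((S (n + 1)).1 l - (S n).1 l) ≤ (1 / 2) ^ (n + 4) := by
    intro n
    rw [hSs]
    exact (hnx n (S n) (hSP n)).2.2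
  -- the diagonal sequence
  have hev : ∀ n, ∀ᶠ l in atTop, ∀ l' ≥ l, ∀ l'' ≥ l, R (n + 1) ((S n).1 l' - (S n).1 l'') ≤ (1 / 2) ^ (n + 4) := by
    intro n
    obtain ⟨N, hN⟩ := (hSP n).2.1 ((1 / 2) ^ (n + 4)) (by positivity)
    filter_upwards [eventually_ge_atTop N] with l hl l' hl' l'' hl''
    exact hN l' (le_trans hl hl') l'' (le_trans hl hl'')
  obtain ⟨L, hL, hLc⟩ := Filter.extraction_forall_of_eventually hev
  let Z : ℕ → A := fun n => (S n).1 (L n)
  have hZ : ∀ n, P (n + 1) (Z (n + 1) - Z n) ≤ (1 / 2) ^ (n + 3) := by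
    intro n
    have e1 : Z (n + 1) - Z n = ((S (n + 1)).1 (L (n + 1)) - (S n).1 (L (n + 1))) +
        ((S n).1 (L (n + 1)) - (S n).1 (L n)) := by
      show (S (n + 1)).1 (L (n + 1)) - (S n).1 (L n) = _
      abel
    rw [e1]
    have h1 := map_add_le_add (P (n + 1)) ((S (n + 1)).1 (L (n + 1)) - (S n).1 (L (n + 1)))
      ((S n).1 (L (n + 1)) - (S n).1 (L n))
    have h2 := hSe n (L (n + 1))
    have h3 := (hRP (n + 1) _).trans (hLc n (L (n + 1)) (hL.monotone (Nat.le_succ n)) (L n) le_rfl)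
    have h4 : (1 / 2 : ℝ) ^ (n + 3) = (1 / 2) ^ (n + 4) + (1 / 2) ^ (n + 4) := by
      rw [pow_succ (1 / 2 : ℝ) (n + 3)]
      ring
    rw [h4]
    linarith
  have hcau : ∀ m n, m ≤ n → ∀ i, P (m + 1) (Z (n + i) - Z n) ≤ (1 / 2) ^ (n + 2) * (1 - (1 / 2) ^ i) := by
    intro m n hmn i
    induction i with
    | zero => simp
    | succ i ih =>
      have e1 : Z (n + (i + 1)) - Z n = (Z (n + i + 1) - Z (n + i)) + (Z (n + i) - Z n) := by
        rw [← add_assoc]
        abel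
      rw [e1]
      have h1 := map_add_le_add (P (m + 1)) (Z (n + i + 1) - Z (n + i)) (Z (n + i) - Z n)
      have h2 := (hPmono (m + 1) (n + i + 1) (by omega) (Z (n + i + 1) - Z (n + i))).trans (hZ (n + i))
      have h3 : (1 / 2 : ℝ) ^ (n + i + 3) = (1 / 2) ^ (n + 2) * (1 / 2) ^ i * (1 / 2) := by
        rw [pow_add, pow_add, pow_add]
        norm_num
        ring
      have h4 : (0 : ℝ) < (1 / 2) ^ (n + 2) * (1 / 2) ^ i := by positivity
      rw [h3] at h2
      rw [pow_succ (1 / 2 : ℝ) i]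
      linarith
  obtain ⟨a, ha⟩ := exists_lim A Z (by
    intro U hU
    obtain ⟨m, hm⟩ := hvU U hU
    refine ⟨m + 1, fun n hn => hm _ ?_⟩
    obtain ⟨i, rfl⟩ := Nat.exists_eq_add_of_le hn
    have h1 := (hPle2 m _).trans (hcau m (m + 1) (by omega) i)
    have h2 : (1 / 2 : ℝ) ^ (m + 1 + 2) ≤ 1 / 2 := by
      have h5 : (1 / 2 : ℝ) ^ (m + 1 + 2) ≤ (1 / 2) ^ 1 := pow_le_pow_of_le_one (by norm_num) (by norm_num) (by omega)
      simpa using h5
    have h3 : (0 : ℝ) < (1 / 2) ^ i := by positivity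
    have h4 : (0 : ℝ) < (1 / 2) ^ (m + 1 + 2) := by positivity
    refine lt_of_le_of_lt h1 ?_
    nlinarith)
  have haZ : ∀ i, P (i + 1) (a - Z i) ≤ (1 / 2) ^ (i + 2) := by
    intro i
    have h1 : Tendsto (fun n => P (i + 1) (Z n - Z i)) atTop (𝓝 (P (i + 1) (a - Z i))) :=
      ((hPg (i + 1)).1.tendsto _).comp (ha.sub_const (Z i))
    refine le_of_tendsto h1 ?_
    filter_upwards [eventually_ge_atTop i] with n hn
    obtain ⟨k, rfl⟩ := Nat.exists_eq_add_of_le hn
    refine (hcau i i le_rfl k).trans ?_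
    have h3 : (0 : ℝ) < (1 / 2) ^ k := by positivity
    have h4 : (0 : ℝ) < (1 / 2) ^ (i + 2) := by positivity
    nlinarith
  have hazl : ∀ i, ∀ l ≥ L i, P (i + 1) (a - (S i).1 l) ≤ (1 / 2) ^ (i + 1) := by
    intro i l hl
    have e1 : a - (S i).1 l = (a - Z i) + ((S i).1 (L i) - (S i).1 l) := by
      show a - (S i).1 l = (a - (S i).1 (L i)) + ((S i).1 (L i) - (S i).1 l)
      abel
    rw [e1]
    have h1 := map_add_le_add (P (i + 1)) (a - Z i) ((S i).1 (L i) - (S i).1 l)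
    have h2 := (hRP (i + 1) _).trans (hLc i (L i) le_rfl l hl)
    have h3 : (1 / 2 : ℝ) ^ (i + 4) ≤ (1 / 2) ^ (i + 2) := pow_le_pow_of_le_one (by norm_num) (by norm_num) (by omega)
    have h4 : (1 / 2 : ℝ) ^ (i + 1) = (1 / 2) ^ (i + 2) + (1 / 2) ^ (i + 2) := by
      rw [pow_succ (1 / 2 : ℝ) (i + 1)]
      ring
    rw [h4]
    linarith [haZ i]
  have hbd : ∀ j i b, ∀ ε : ℝ, 0 < ε → ∀ᶠ l in atTop, P (j + 1) ((S (j + i)).1 l * b) ≤
      ((S j).2 + 1 - (1 / 2) ^ i) * Q p b + ε := by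
    intro j i b
    induction i with
    | zero =>
      intro ε hε
      filter_upwards [(hSP j).2.2 b ε hε] with l hl
      have h1 := (hRP (j + 1) _).trans hl
      simpa using h1
    | succ i ih =>
      intro ε hε
      filter_upwards [ih (ε / 2) (by positivity), hSd (j + i) b (ε / 2) (by positivity)] with l h0 h2'
      have e1 : (S (j + (i + 1))).1 l * b =
          ((S (j + i + 1)).1 l - (S (j + i)).1 l) * b + (S (j + i)).1 l * b := by
        rw [← add_assoc]
        ring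
      rw [e1]
      have h1 := map_add_le_add (P (j + 1)) (((S (j + i + 1)).1 l - (S (j + i)).1 l) * b)
        ((S (j + i)).1 l * b)
      have h2 := (hPmono (j + 1) (j + i + 1) (by omega)
        (((S (j + i + 1)).1 l - (S (j + i)).1 l) * b)).trans h2'
      have hb := apply_nonneg (Q p) b
      have h3 : (1 / 2 : ℝ) ^ (j + i + 4) ≤ (1 / 2) ^ i * (1 / 2) := by
        have h5 : (1 / 2 : ℝ) ^ (j + i + 4) = (1 / 2) ^ j * ((1 / 2) ^ i * (1 / 16)) := by
          rw [pow_add, pow_add]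
          norm_num
          ring
        have h6 : (1 / 2 : ℝ) ^ j ≤ 1 := pow_le_one₀ (by norm_num) (by norm_num)
        have h7 : (0 : ℝ) < (1 / 2) ^ i := by positivity
        rw [h5]
        nlinarith
      have h4 := mul_le_mul_of_nonneg_right h3 hb
      rw [pow_succ (1 / 2 : ℝ) i]
      nlinarith
  have hlimb : ∀ j b, P (j + 1) (a * b) ≤ ((S j).2 + 1) * Q p b := by
    intro j b
    have hb := apply_nonneg (Q p) b
    have hPb := apply_nonneg (P (j + 1)) b
    refine le_of_forall_pos_le_add fun ε hε => ?_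
    obtain ⟨i, hi⟩ := exists_pow_lt_of_lt_one (by positivity : 0 < ε / 2 / (P (j + 1) b + 1)) (by norm_num : (1 / 2 : ℝ) < 1)
    rw [lt_div_iff₀ (by positivity)] at hi
    obtain ⟨l, hl1, hl2⟩ := ((hbd j i b (ε / 2) (by positivity)).and (eventually_ge_atTop (L (j + i)))).exists
    have h1 := hazl (j + i) l hl2
    have h2 := (hPmono (j + 1) (j + i + 1) (by omega) (a - (S (j + i)).1 l)).trans h1
    have e1 : a * b = (a - (S (j + i)).1 l) * b + (S (j + i)).1 l * b := by ring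
    have h3 := map_add_le_add (P (j + 1)) ((a - (S (j + i)).1 l) * b) ((S (j + i)).1 l * b)
    have h4 := ((hPg (j + 1)).2 (a - (S (j + i)).1 l) b).trans (mul_le_mul_of_nonneg_right h2 hPb)
    have h5 : (1 / 2 : ℝ) ^ (j + i + 1) ≤ (1 / 2) ^ i := pow_le_pow_of_le_one (by norm_num) (by norm_num) (by omega)
    have h6 := mul_le_mul_of_nonneg_right h5 hPb
    have h7 : (0 : ℝ) < (1 / 2) ^ i := by positivity
    have h8 := mul_nonneg h7.le hb
    rw [e1]
    nlinarith
  refine ⟨a, ⟨Q p, (hQ _ hp).1, fun r hr => ?_⟩, ?_⟩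
  · obtain ⟨n, hn⟩ := hvs r hr
    exact ⟨(S n).2 + 1, fun b => (hn _).trans ((hPle2 n _).trans (hlimb n b))⟩
  · have h1 := (hPle1 0 _).trans (haZ 0)
    rw [hP0] at h1
    have h2 : p (1 - Z 0) ≤ 1 / 8 := hz0 (L 0)
    have e1 : 1 - a = (1 - Z 0) - (a - Z 0) := by abel
    rw [e1]
    have h3 := map_sub_le_add p (1 - Z 0) (a - Z 0)
    norm_num at h1
    linarith

end Pool.Agent.Helper21.SL
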